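import Pool.Agent.H95.CMC.Targets

/-! MP_52e316_nt: board cm4_modules, row F_LNI. -/

set_option autoImplicit false

open NumberField
open Pool.Agent.H65.CM4 Pool.Agent.H65.CMC Pool.Agent.H95.CMC

namespace Pool.Agent.H20.CMC

section

variable {k K : Type} [Field k] [NumberField k] [Field K] [NumberField K] [Algebra k K]

theorem lni_prime (P : Ideal (𝓞 k)) [hP : P.IsPrime] (J : Ideal (𝓞 K)) (hJ : J ≠ ⊥)
    (hJP : Ideal.relNorm (𝓞 k) J ≤ P) :
    ∃ Q : Ideal (𝓞 K), Q.IsPrime ∧ J ≤ Q ∧ Ideal.relNorm (𝓞 k) Q ≤ P := by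
  induction J using UniqueFactorizationMonoid.induction_on_prime with
  | h₁ => exact absurd rfl hJ
  | h₂ J hu =>
    rw [Ideal.isUnit_iff] at hu
    rw [hu, Ideal.relNorm_top] at hJP
    exact absurd (top_le_iff.mp hJP) hP.ne_top
  | h₃ J Q hJ0 hQ ih =>
    rw [map_mul] at hJP
    rcases hP.mul_le.mp hJP with h | h
    · exact ⟨Q, Ideal.isPrime_of_prime hQ, Ideal.mul_le_left, h⟩
    · obtain ⟨Q', h1, h2, h3⟩ := ih hJ0 h
      exact ⟨Q', h1, Ideal.mul_le_right.trans h2, h3⟩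

/-- the norm of an ideal prime to `f` is prime to `f` -/
theorem lni_cop (f P : Ideal (𝓞 k)) [hP : P.IsPrime] (J : Ideal (𝓞 K)) (hJ : PrTo f J)
    (hJP : Ideal.relNorm (𝓞 k) J ≤ P) : ¬ f ≤ P := by
  intro hfP
  obtain ⟨Q, hQ, hJQ, hQP⟩ := lni_prime P J hJ.1 hJP
  have hQ0 : Q ≠ ⊥ := by
    rintro rfl
    exact hJ.1 (le_bot_iff.mp hJQ)
  have hQm : Q.IsMaximal := hQ.isMaximal hQ0
  have hle : Q.comap (algebraMap (𝓞 k) (𝓞 K)) ≤ P := by
    intro q hq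
    rw [Ideal.mem_comap] at hq
    have h1 : (Ideal.span {q}).map (algebraMap (𝓞 k) (𝓞 K)) ≤ Q := by
      rw [Ideal.map_span, Set.image_singleton, Ideal.span_singleton_le_iff_mem]
      exact hq
    have h2 := (Ideal.relNorm_mono (𝓞 k) h1).trans hQP
    rw [Ideal.relNorm_algebraMap, Ideal.span_singleton_pow, Ideal.span_singleton_le_iff_mem] at h2
    exact hP.mem_of_pow_mem _ h2
  have hcm : (Q.comap (algebraMap (𝓞 k) (𝓞 K))).IsMaximal :=
    Ideal.isMaximal_comap_of_isIntegral_of_isMaximal Q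
  have heq : Q.comap (algebraMap (𝓞 k) (𝓞 K)) = P := hcm.eq_of_le hP.ne_top hle
  have h3 : f.map (algebraMap (𝓞 k) (𝓞 K)) ≤ Q := by
    rw [Ideal.map_le_iff_le_comap, heq]
    exact hfP
  have h4 : (⊤ : Ideal (𝓞 K)) ≤ Q := by
    rw [← hJ.2]
    exact sup_le hJQ h3
  exact hQ.ne_top (top_le_iff.mp h4)

theorem lni_mem_f (f : Ideal (𝓞 k)) (I : Ideal (𝓞 K)) (l : 𝓞 K) (hl : l ∈ I)
    (hlf : PrTo f (Ideal.span {l})) (n : 𝓞 k) :
    algebraMap (𝓞 k) (𝓞 K) n * l ∈ f.map (algebraMap (𝓞 k) (𝓞 K)) * I ↔ n ∈ f := by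
  constructor
  · intro h
    have h1 : algebraMap (𝓞 k) (𝓞 K) n * l ∈ f.map (algebraMap (𝓞 k) (𝓞 K)) :=
      Ideal.mul_le_left h
    have h2 : (1 : 𝓞 K) ∈ Ideal.span {l} ⊔ f.map (algebraMap (𝓞 k) (𝓞 K)) := by
      rw [hlf.2]; trivial
    obtain ⟨a, ha, z, hz, haz⟩ := Submodule.mem_sup.mp h2
    obtain ⟨c, rfl⟩ := Ideal.mem_span_singleton'.mp ha
    have h3 : algebraMap (𝓞 k) (𝓞 K) n ∈ f.map (algebraMap (𝓞 k) (𝓞 K)) := by
      have h4 : algebraMap (𝓞 k) (𝓞 K) n =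
          c * (algebraMap (𝓞 k) (𝓞 K) n * l) + algebraMap (𝓞 k) (𝓞 K) n * z := by
        linear_combination (-algebraMap (𝓞 k) (𝓞 K) n) * haz
      rw [h4]
      exact Ideal.add_mem _ (Ideal.mul_mem_left _ _ h1) (Ideal.mul_mem_left _ _ hz)
    have h5 : n ∈ (f.map (algebraMap (𝓞 k) (𝓞 K))).comap (algebraMap (𝓞 k) (𝓞 K)) := h3
    rwa [Ideal.comap_map_eq_self_of_faithfullyFlat] at h5
  · intro h
    exact Ideal.mul_mem_mul (Ideal.mem_map_of_mem _ h) hl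

theorem lni_index_ideal {S : Type} [Field S] [NumberField S] (J : Ideal (𝓞 S)) :
    J.toAddSubgroup.index = Ideal.absNorm J := rfl

theorem lni_rel (f : Ideal (𝓞 k)) (I : Ideal (𝓞 K)) (l : 𝓞 K) (hl : l ∈ I)
    (hlf : PrTo f (Ideal.span {l})) :
    (f.map (algebraMap (𝓞 k) (𝓞 K)) * I).toAddSubgroup.relIndex (ln f I l).toAddSubgroup =
      Ideal.absNorm f := by
  set FI : Ideal (𝓞 K) := f.map (algebraMap (𝓞 k) (𝓞 K)) * I with hFI
  let p : 𝓞 K →+ (𝓞 K ⧸ FI) := (Ideal.Quotient.mk FI).toAddMonoidHom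
  have hp : ∀ x, p x = 0 ↔ x ∈ FI := fun x => Ideal.Quotient.eq_zero_iff_mem
  have hker : p.ker = FI.toAddSubgroup := by
    ext x
    rw [AddMonoidHom.mem_ker, hp]
    rfl
  let φ : 𝓞 k →+ (𝓞 K ⧸ FI) :=
    p.comp ((AddMonoidHom.mulRight l).comp (algebraMap (𝓞 k) (𝓞 K)).toAddMonoidHom)
  have hφ : ∀ n, φ n = p (algebraMap (𝓞 k) (𝓞 K) n * l) := fun n => rfl
  have hkerφ : φ.ker = f.toAddSubgroup := by
    ext n
    rw [AddMonoidHom.mem_ker, hφ, hp, hFI, lni_mem_f f I l hl hlf]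
    rfl
  have hmap : AddSubgroup.map p (ln f I l).toAddSubgroup = φ.range := by
    ext q
    constructor
    · rintro ⟨x, ⟨n, hn⟩, rfl⟩
      refine ⟨n, ?_⟩
      rw [hφ]
      have h1 : p (x - algebraMap (𝓞 k) (𝓞 K) n * l) = 0 := (hp _).mpr hn
      rw [map_sub] at h1
      exact (sub_eq_zero.mp h1).symm
    · rintro ⟨n, rfl⟩
      refine ⟨algebraMap (𝓞 k) (𝓞 K) n * l, ⟨n, ?_⟩, (hφ n).symm⟩
      rw [sub_self]
      exact Ideal.zero_mem _
  rw [← hker, AddSubgroup.relIndex_ker, hmap, ← AddSubgroup.index_ker, hkerφ]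
  exact lni_index_ideal f

end

/-- F_LNI. -/
theorem pf_LNI (_hLNB : T_LNB) : T_LNI := by
  intro k K _ _ _ _ _ _ _ _ f I l hf hI hl hlf
  have hfr : Module.finrank (𝓞 k) (𝓞 K) = 2 := by
    rw [← IsFractionRing.finrank_eq (𝓞 k) k (𝓞 K) K]
    exact Algebra.IsQuadraticExtension.finrank_eq_two k K
  have hf0 : Ideal.absNorm f ≠ 0 := by
    rw [Ne, Ideal.absNorm_eq_zero_iff]
    exact hf
  have hFIln : ∀ x ∈ f.map (algebraMap (𝓞 k) (𝓞 K)) * I, x ∈ ln f I l := by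
    intro x hx
    refine ⟨0, ?_⟩
    rw [map_zero, zero_mul, sub_zero]
    exact hx
  have hlnI : ∀ x ∈ ln f I l, x ∈ I := by
    rintro x ⟨n, hn⟩
    have h1 : x - algebraMap (𝓞 k) (𝓞 K) n * l ∈ I := Ideal.mul_le_right hn
    have h2 : algebraMap (𝓞 k) (𝓞 K) n * l ∈ I := Ideal.mul_mem_left _ _ hl
    have h3 := Ideal.add_mem _ h1 h2
    rwa [sub_add_cancel] at h3
  constructor
  · have h1 : (f.map (algebraMap (𝓞 k) (𝓞 K)) * I).toAddSubgroup ≤ (ln f I l).toAddSubgroup :=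
      fun x hx => hFIln x hx
    have h2 := AddSubgroup.relIndex_mul_index h1
    rw [lni_rel f I l hl hlf, lni_index_ideal, map_mul, Ideal.absNorm_algebraMap, hfr] at h2
    have h3 : Ideal.absNorm f * (ln f I l).toAddSubgroup.index =
        Ideal.absNorm f * (Ideal.absNorm I * Ideal.absNorm f) := by
      rw [h2]; ring
    exact Nat.eq_of_mul_eq_mul_left (Nat.pos_of_ne_zero hf0) h3
  · have hm0 : Ideal.relNorm (𝓞 k) I ≠ ⊥ := by
      rw [Ne, Ideal.relNorm_eq_bot_iff]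
      exact hI.1
    have hsub : ∀ J : Ideal (𝓞 K), (∀ x ∈ J, x ∈ ln f I l) →
        Ideal.relNorm (𝓞 k) J ≤ ns (ln f I l) := by
      intro J hJ
      rw [Ideal.relNorm_apply]
      refine Ideal.span_mono ?_
      rintro _ ⟨x, hx, rfl⟩
      exact ⟨x, hJ x hx, rfl⟩
    have hle : ns (ln f I l) ≤ Ideal.relNorm (𝓞 k) I := by
      rw [Ideal.relNorm_apply]
      refine Ideal.span_mono ?_
      rintro _ ⟨x, hx, rfl⟩
      exact ⟨x, hlnI x hx, rfl⟩
    obtain ⟨n', hn'⟩ := Ideal.dvd_iff_le.mpr hle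
    have hn'top : n' = ⊤ := by
      by_contra hne
      obtain ⟨P, hP, hn'P⟩ := Ideal.exists_le_maximal n' hne
      have hPp : P.IsPrime := hP.isPrime
      have h1 : ns (ln f I l) ≤ Ideal.relNorm (𝓞 k) I * P := by
        rw [hn']
        exact Ideal.mul_mono_right hn'P
      have h2 : Ideal.relNorm (𝓞 k) (Ideal.span {l}) ≤ P := by
        rw [Ideal.relNorm_singleton, Ideal.span_singleton_le_iff_mem]
        refine (h1.trans Ideal.mul_le_right) (Ideal.subset_span ⟨l, ⟨1, ?_⟩, rfl⟩)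
        rw [map_one, one_mul, sub_self]
        exact Ideal.zero_mem _
      have h3 := lni_cop f P (Ideal.span {l}) hlf h2
      obtain ⟨y, hyf, hyP⟩ := Set.not_subset.mp h3
      have h4 : Ideal.relNorm (𝓞 k) ((Ideal.span {y}).map (algebraMap (𝓞 k) (𝓞 K)) * I) ≤
          Ideal.relNorm (𝓞 k) I * P := by
        refine (hsub _ ?_).trans h1
        intro x hx
        refine hFIln x (Ideal.mul_mono_left ?_ hx)
        exact Ideal.map_mono (by rw [Ideal.span_singleton_le_iff_mem]; exact hyf)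
      rw [map_mul, Ideal.relNorm_algebraMap, mul_comm, ← Ideal.dvd_iff_le,
        mul_dvd_mul_iff_left hm0, Ideal.dvd_iff_le, Ideal.span_singleton_pow,
        Ideal.span_singleton_le_iff_mem] at h4
      exact hyP (hPp.mem_of_pow_mem _ h4)
    rw [hn', hn'top, Ideal.mul_top]

end Pool.Agent.H20.CMC
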