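import Pool.Agent.H95.CMC.Targets

/-! MP_52e316_nt: board cm4_modules, row F_ORT. -/

set_option autoImplicit false

open NumberField
open scoped nonZeroDivisors
open Pool.Agent.H65.CM4 Pool.Agent.H65.CMC Pool.Agent.H95.CMC

namespace Pool.Agent.H20.CMC

section

variable {k K : Type} [Field k] [NumberField k] [Field K] [NumberField K] [Algebra k K]

theorem prTo_mul {f : Ideal (𝓞 k)} {A B : Ideal (𝓞 K)} (hA : PrTo f A) (hB : PrTo f B) :
    PrTo f (A * B) := by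
  refine ⟨mul_ne_zero hA.1 hB.1, ?_⟩
  have h1 : IsCoprime A (f.map (algebraMap (𝓞 k) (𝓞 K))) := Ideal.isCoprime_iff_sup_eq.mpr hA.2
  have h2 : IsCoprime B (f.map (algebraMap (𝓞 k) (𝓞 K))) := Ideal.isCoprime_iff_sup_eq.mpr hB.2
  exact Ideal.isCoprime_iff_sup_eq.mp (h1.mul_left h2)

theorem prTo_left {f : Ideal (𝓞 k)} {A B : Ideal (𝓞 K)} (h : PrTo f (A * B)) : PrTo f A := by
  refine ⟨left_ne_zero_of_mul h.1, ?_⟩
  rw [eq_top_iff, ← h.2]
  exact sup_le_sup_right Ideal.mul_le_left _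

/-- an element of `F I` and `J I` is in `F (J I)` -/
theorem ort_inf (F J I : Ideal (𝓞 K)) (h : J ⊔ F = ⊤) (z : 𝓞 K) (h1 : z ∈ F * I)
    (h2 : z ∈ J * I) : z ∈ F * (J * I) := by
  have h3 : (1 : 𝓞 K) ∈ J ⊔ F := by rw [h]; trivial
  obtain ⟨a, ha, b, hb, hab⟩ := Submodule.mem_sup.mp h3
  have h4 : z = a * z + b * z := by rw [← add_mul, hab, one_mul]
  rw [h4]
  refine Ideal.add_mem _ ?_ (Ideal.mul_mem_mul hb h2)
  have h5 : a * z ∈ J * (F * I) := Ideal.mul_mem_mul ha h1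
  rwa [mul_left_comm] at h5

end

/-- F_ORT. -/
theorem pf_ORT (hLNB : T_LNB) (hRHO : T_RHO) : T_ORT := by
  classical
  intro k K _ _ _ _ _ _ _ _ Φ f m ψ ψ' b B y R hE hψ hψ' hne
  obtain ⟨J0, hJ0⟩ := Function.ne_iff.mp hne
  have hJ0p : PrTo f J0 := by
    by_contra h
    exact hJ0 (by rw [hψ.zer _ h, hψ'.zer _ h])
  -- the quotient of the characters
  obtain ⟨η, hη⟩ : ∃ η : Ideal (𝓞 K) → ℂ, ∀ J, η J = ψ J * (starRingEnd ℂ) (ψ' J) :=
    ⟨fun J => ψ J * (starRingEnd ℂ) (ψ' J), fun J => rfl⟩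
  have hηmul : ∀ A B, η (A * B) = η A * η B := by
    intro A B
    rw [hη, hη, hη, hψ.mul, hψ'.mul, map_mul]
    ring
  have hηne : ∀ J, PrTo f J → η J ≠ 0 := by
    intro J hJ h0
    have h1 : ‖η J‖ = 1 := by
      rw [hη, norm_mul, RCLike.norm_conj, hψ.nrm J hJ, hψ'.nrm J hJ, one_mul]
    rw [h0, norm_zero] at h1
    exact zero_ne_one h1
  have hη0 : η J0 ≠ 1 := by
    intro h1
    apply hJ0
    have h2 : ψ' J0 * (starRingEnd ℂ) (ψ' J0) = 1 := by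
      rw [Complex.mul_conj, Complex.normSq_eq_norm_sq, hψ'.nrm J0 hJ0p]
      norm_num
    have h3 : ψ J0 * (starRingEnd ℂ) (ψ' J0) = 1 := by rw [← hη, h1]
    have h4 : (starRingEnd ℂ) (ψ' J0) ≠ 0 := right_ne_zero_of_mul (by rw [h2]; exact one_ne_zero)
    exact mul_right_cancel₀ h4 (h3.trans h2.symm)
  have hfne := hψ.fne
  -- the summand
  have hθ : ∀ (c : ClassGroup (𝓞 K)) (l : 𝓞 K), l ∈ (R.I c : Ideal (𝓞 K)) →
      PrTo f (Ideal.span {l}) →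
      ((ψ (R.I c))⁻¹ * rh Φ m ψ f (R.I c) (ln f (R.I c : Ideal (𝓞 K)) l)) *
      (starRingEnd ℂ) ((ψ' (R.I c))⁻¹ * rh Φ m ψ' f (R.I c) (ln f (R.I c : Ideal (𝓞 K)) l)) =
      (η (R.I c))⁻¹ * η (Ideal.span {l}) := by
    intro c l hl hlf
    obtain ⟨ht, -, h1, -⟩ := hRHO k K Φ f m ψ (R.I c) hE hψ (R.pr c)
    obtain ⟨-, -, h2, -⟩ := hRHO k K Φ f m ψ' (R.I c) hE hψ' (R.pr c)
    rw [h1 l hl hlf, h2 l hl hlf, hη, hη]
    have hl0 : (l : K) ≠ 0 := by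
      intro h0
      apply hlf.1
      have : l = 0 := by exact_mod_cast h0
      rw [this, Ideal.span_singleton_eq_bot]
    have h3 : ty Φ m (l : K) * (starRingEnd ℂ) (ty Φ m (l : K)) = 1 := by
      rw [Complex.mul_conj, Complex.normSq_eq_norm_sq, ht _ hl0]
      norm_num
    have h4 : (ty Φ m (l : K))⁻¹ * ((starRingEnd ℂ) (ty Φ m (l : K)))⁻¹ = 1 := by
      rw [← mul_inv, h3, inv_one]
    rw [map_mul, map_div₀, map_inv₀, mul_inv, div_eq_mul_inv, div_eq_mul_inv]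
    linear_combination ((ψ (R.I c))⁻¹ * ((starRingEnd ℂ) (ψ' (R.I c)))⁻¹ *
      ψ (Ideal.span {l}) * (starRingEnd ℂ) (ψ' (Ideal.span {l}))) * h4
  -- the map on classes
  let J0' : (Ideal (𝓞 K))⁰ := ⟨J0, mem_nonZeroDivisors_of_ne_zero hJ0p.1⟩
  let cp : ClassGroup (𝓞 K) → ClassGroup (𝓞 K) := fun c => (ClassGroup.mk0 J0')⁻¹ * c
  have hxy : ∀ c : ClassGroup (𝓞 K), ∃ x y : 𝓞 K, x ≠ 0 ∧ y ≠ 0 ∧
      Ideal.span {x} * (J0 * (R.I (cp c) : Ideal (𝓞 K))) = Ideal.span {y} * R.I c := by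
    intro c
    have h1 : ClassGroup.mk0 (J0' * R.I (cp c)) = ClassGroup.mk0 (R.I c) := by
      rw [map_mul, R.cl, R.cl]
      exact mul_inv_cancel_left _ _
    obtain ⟨x, y, hx, hy, h⟩ := ClassGroup.mk0_eq_mk0_iff.mp h1
    exact ⟨x, y, hx, hy, h⟩
  choose x y hx hy hxy using hxy
  -- the map on lines
  set S : Finset ((_ : ClassGroup (𝓞 K)) × Sl k K) :=
    Finset.univ.sigma (fun c => Ln f (R.I c : Ideal (𝓞 K))) with hS
  have hT : ∀ p : (_ : ClassGroup (𝓞 K)) × Sl k K, ∃ q : (_ : ClassGroup (𝓞 K)) × Sl k K,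
      p ∈ S → ∃ l l' : 𝓞 K, l ∈ (R.I p.1 : Ideal (𝓞 K)) ∧ PrTo f (Ideal.span {l}) ∧
        p.2 = ln f (R.I p.1) l ∧ l' ∈ J0 * (R.I (cp p.1) : Ideal (𝓞 K)) ∧
        y p.1 * l = x p.1 * l' ∧ q = ⟨cp p.1, ln f (R.I (cp p.1)) l'⟩ := by
    intro p
    by_cases hp : p ∈ S
    · have h1 : p.2 ∈ Ln f (R.I p.1 : Ideal (𝓞 K)) := (Finset.mem_sigma.mp hp).2
      obtain ⟨l, hl, hlf, hpl⟩ := ((hLNB k K f (R.I p.1) hfne (R.pr p.1)).1 p.2).mp h1
      have h2 : y p.1 * l ∈ Ideal.span {x p.1} * (J0 * (R.I (cp p.1) : Ideal (𝓞 K))) := by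
        rw [hxy]
        exact Ideal.mul_mem_mul (Ideal.mem_span_singleton_self _) hl
      obtain ⟨l', hl', hll'⟩ := Ideal.mem_span_singleton_mul.mp h2
      exact ⟨⟨cp p.1, ln f (R.I (cp p.1)) l'⟩, fun _ => ⟨l, l', hl, hlf, hpl, hl', hll'.symm, rfl⟩⟩
    · exact ⟨p, fun h => absurd h hp⟩
  choose T hT using hT
  -- the ideals of `l` and `l'`
  have hll : ∀ (c : ClassGroup (𝓞 K)) (l l' : 𝓞 K), y c * l = x c * l' →
      Ideal.span {l'} * (R.I c : Ideal (𝓞 K)) =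
        Ideal.span {l} * (J0 * (R.I (cp c) : Ideal (𝓞 K))) := by
    intro c l l' h
    have hx0 : Ideal.span {x c} ≠ (0 : Ideal (𝓞 K)) := by
      rw [Ideal.zero_eq_bot, Ne, Ideal.span_singleton_eq_bot]
      exact hx c
    apply mul_left_cancel₀ hx0
    have h1 : Ideal.span {x c} * Ideal.span {l'} = Ideal.span {y c} * Ideal.span {l} := by
      rw [Ideal.span_singleton_mul_span_singleton, Ideal.span_singleton_mul_span_singleton, h]
    rw [← mul_assoc, h1, mul_left_comm (Ideal.span {x c}) (Ideal.span {l}), hxy c]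
    ring
  have hl'f : ∀ (c : ClassGroup (𝓞 K)) (l l' : 𝓞 K), PrTo f (Ideal.span {l}) →
      y c * l = x c * l' → PrTo f (Ideal.span {l'}) := by
    intro c l l' hl h
    have h1 : PrTo f (Ideal.span {l'} * (R.I c : Ideal (𝓞 K))) := by
      rw [hll c l l' h]
      exact prTo_mul hl (prTo_mul hJ0p (R.pr _))
    exact prTo_left h1
  have hTS : ∀ p ∈ S, T p ∈ S := by
    intro p hp
    obtain ⟨l, l', hl, hlf, hpl, hl', hyx, hq⟩ := hT p hp
    rw [hq, hS, Finset.mem_sigma]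
    refine ⟨Finset.mem_univ _, ?_⟩
    refine ((hLNB k K f (R.I (cp p.1)) hfne (R.pr (cp p.1))).1 _).mpr ⟨l', ?_, ?_, rfl⟩
    · exact Ideal.mul_le_right hl'
    · exact hl'f p.1 l l' hlf hyx
  have hTinj : ∀ p ∈ S, ∀ q ∈ S, T p = T q → p = q := by
    rintro ⟨c, Λ⟩ hp ⟨d, Λ'⟩ hq hpq
    obtain ⟨l, l', hl, hlf, hpl, hl', hyx, hTp⟩ := hT _ hp
    obtain ⟨r, r', hr, hrf, hqr, hr', hyx', hTq⟩ := hT _ hq
    rw [hTp, hTq] at hpq
    have hcd : c = d := by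
      have h1 : cp c = cp d := congrArg Sigma.fst hpq
      exact mul_left_cancel h1
    subst hcd
    have h2 : ln f (R.I (cp c) : Ideal (𝓞 K)) l' = ln f (R.I (cp c) : Ideal (𝓞 K)) r' := by
      exact eq_of_heq (Sigma.mk.inj hpq).2
    have h3 : r' ∈ ln f (R.I (cp c) : Ideal (𝓞 K)) l' := by
      rw [h2]
      refine ⟨1, ?_⟩
      rw [map_one, one_mul, sub_self]
      exact Ideal.zero_mem _
    obtain ⟨n, hn⟩ := h3
    have h4 : r' - algebraMap (𝓞 k) (𝓞 K) n * l' ∈ J0 * (R.I (cp c) : Ideal (𝓞 K)) :=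
      Ideal.sub_mem _ hr' (Ideal.mul_mem_left _ _ hl')
    have h5 := ort_inf _ _ _ hJ0p.2 _ hn h4
    have h6 : y c * (r - algebraMap (𝓞 k) (𝓞 K) n * l) =
        x c * (r' - algebraMap (𝓞 k) (𝓞 K) n * l') := by
      have e1 : y c * l = x c * l' := hyx
      have e2 : y c * r = x c * r' := hyx'
      linear_combination e2 - algebraMap (𝓞 k) (𝓞 K) n * e1
    have h7 : y c * (r - algebraMap (𝓞 k) (𝓞 K) n * l) ∈
        Ideal.span {y c} * (f.map (algebraMap (𝓞 k) (𝓞 K)) * (R.I c : Ideal (𝓞 K))) := by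
      rw [h6, mul_left_comm, ← hxy c, mul_left_comm]
      exact Ideal.mul_mem_mul (Ideal.mem_span_singleton_self _) h5
    obtain ⟨w, hw, hw'⟩ := Ideal.mem_span_singleton_mul.mp h7
    have h8 : w = r - algebraMap (𝓞 k) (𝓞 K) n * l := mul_left_cancel₀ (hy c) hw'
    have h9 : r ∈ ln f (R.I c : Ideal (𝓞 K)) l := ⟨n, by rw [← h8]; exact hw⟩
    have hΛ : Λ = ln f (R.I c : Ideal (𝓞 K)) l := hpl
    have hΛ' : Λ' = ln f (R.I c : Ideal (𝓞 K)) r := hqr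
    have h10 : Λ ∈ Ln f (R.I c : Ideal (𝓞 K)) := (Finset.mem_sigma.mp hp).2
    have h11 := ((hLNB k K f (R.I c) hfne (R.pr c)).2.1 r hr hrf Λ h10).mp (by rw [hΛ]; exact h9)
    rw [hΛ', ← h11]
  -- the sum
  obtain ⟨θ, hθdef⟩ : ∃ θ : ((_ : ClassGroup (𝓞 K)) × Sl k K) → ℂ, ∀ p, θ p =
      ((ψ (R.I p.1))⁻¹ * rh Φ m ψ f (R.I p.1) p.2) *
      (starRingEnd ℂ) ((ψ' (R.I p.1))⁻¹ * rh Φ m ψ' f (R.I p.1) p.2) := ⟨_, fun _ => rfl⟩
  have hθT : ∀ p ∈ S, θ (T p) = η J0 * θ p := by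
    intro p hp
    obtain ⟨l, l', hl, hlf, hpl, hl', hyx, hq⟩ := hT p hp
    rw [hθdef, hθdef, hq, hpl]
    have h1 := hθ (cp p.1) l' (Ideal.mul_le_right hl') (hl'f p.1 l l' hlf hyx)
    have h2 := hθ p.1 l hl hlf
    rw [h2]
    refine h1.trans ?_
    have h3 := congrArg η (hll p.1 l l' hyx)
    rw [hηmul, hηmul, hηmul] at h3
    have h4 := hηne _ (R.pr (cp p.1))
    have h5 := hηne _ (R.pr p.1)
    field_simp
    linear_combination h3
  have himg : S.image T = S := by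
    refine Finset.eq_of_subset_of_card_le ?_ ?_
    · intro q hq
      obtain ⟨p, hp, rfl⟩ := Finset.mem_image.mp hq
      exact hTS p hp
    · rw [Finset.card_image_of_injOn]
      intro p hp q hq h
      exact hTinj p hp q hq h
  have hsum : ∑ p ∈ S, θ p = η J0 * ∑ p ∈ S, θ p := by
    conv_lhs => rw [← himg]
    rw [Finset.sum_image (fun p hp q hq h => hTinj p hp q hq h), Finset.mul_sum]
    exact Finset.sum_congr rfl hθT
  have hzero : ∑ p ∈ S, θ p = 0 := by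
    have h1 : (1 - η J0) * ∑ p ∈ S, θ p = 0 := by
      linear_combination hsum
    rcases mul_eq_zero.mp h1 with h2 | h2
    · exact absurd (sub_eq_zero.mp h2).symm hη0
    · exact h2
  rw [Finset.sum_sigma', ← hS, ← hzero]
  exact Finset.sum_congr rfl fun p _ => (hθdef p).symm

end Pool.Agent.H20.CMC
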